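import Pool.Agent.N202.CF.Stm
import Pool.Agent.N202.TB.Fin
import Pool.Agent.N202.TB.Bracket

/-!
# Conversion of the definitions
-/

set_option linter.unusedSectionVars false

namespace Pool.Agent.N202.CF

open Matrix Filter Topology
open Pool.Agent.N996.BP Pool.Agent.N202.TB

variable {ι : Type} [Fintype ι] [DecidableEq ι]

section act

variable {L : Type} [Field L] {n : ℕ}

lemma act_eq (g : Matrix ι ι L) (t : Tensor ι n L) : act g t = kp (Fin n) g *ᵥ t := rfl

lemma sum_update {M : Type*} [AddCommMonoid M] (v : Fin n → ι) (k : Fin n) (F : (Fin n → ι) → M)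
    (hF : ∀ w, (∃ j ≠ k, v j ≠ w j) → F w = 0) :
    ∑ w, F w = ∑ i, F (Function.update v k i) := by
  have hinj : Function.Injective fun i => Function.update v k i := fun i j h => by
    have := congrFun h k
    simpa using this
  have hm : ∑ i, F (Function.update v k i) =
      ∑ w ∈ Finset.univ.map ⟨fun i => Function.update v k i, hinj⟩, F w :=
    (Finset.sum_map Finset.univ ⟨fun i => Function.update v k i, hinj⟩ F).symm
  rw [hm]
  symm
  refine Finset.sum_subset (Finset.subset_univ _) fun w _ hw => hF w ?_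
  by_contra hc
  push Not at hc
  apply hw
  rw [Finset.mem_map]
  refine ⟨w k, Finset.mem_univ _, ?_⟩
  funext j
  by_cases hj : j = k
  · subst hj; simp
  · simp [Function.update_of_ne hj, hc j hj]

lemma der_eq (y : Matrix ι ι L) (t : Tensor ι n L) : der y t = dp (Fin n) y *ᵥ t := by
  funext v
  rw [Matrix.mulVec, dotProduct]
  simp only [dp, Matrix.of_apply, Finset.sum_mul]
  rw [Finset.sum_comm]
  refine Finset.sum_congr rfl fun k _ => ?_
  rw [sum_update v k]
  · refine Finset.sum_congr rfl fun i _ => ?_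
    rw [Function.update_self, Finset.prod_eq_one, mul_one]
    intro j hj
    rw [Function.update_of_ne (Finset.ne_of_mem_erase hj), if_pos rfl]
  · rintro w ⟨j, hj, hjw⟩
    rw [Finset.prod_eq_zero (Finset.mem_erase.2 ⟨hj, Finset.mem_univ j⟩) (if_neg hjw), mul_zero,
      zero_mul]

end act

section rat

variable {L : Type} [Field L] [CharZero L]

lemma matL_mul (M N : Matrix ι ι ℚ) : matL L (M * N) = matL L M * matL L N :=
  map_mul (Rat.castHom L).mapMatrix M N

lemma matL_one : matL L (1 : Matrix ι ι ℚ) = 1 := map_one (Rat.castHom L).mapMatrix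

lemma matL_add (M N : Matrix ι ι ℚ) : matL L (M + N) = matL L M + matL L N :=
  map_add (Rat.castHom L).mapMatrix M N

lemma matL_sub (M N : Matrix ι ι ℚ) : matL L (M - N) = matL L M - matL L N :=
  map_sub (Rat.castHom L).mapMatrix M N

lemma matL_tr (M : Matrix ι ι ℚ) : matL L Mᵀ = (matL L M)ᵀ := rfl

/-- Rational linear equations for vectors. -/
lemma comb_of_eqs {m : Type} [Fintype m] (P : Set (m → ℚ)) (x : m → L)
    (h : ∀ p ∈ P, ∑ i, (p i : L) * x i = 0) :
    IsComb {z : m → ℚ | ∀ p ∈ P, ∑ i, p i * z i = 0} x := by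
  refine Submodule.span_mono ?_ (Pool.Agent.N738.TB.rat_eq P x h)
  rintro _ ⟨z, hz, rfl⟩
  exact ⟨z, hz, rfl⟩

/-- Rational linear equations for matrices. -/
lemma combM_of_eqs (P : Set (ι × ι → ℚ)) (y : Matrix ι ι L)
    (h : ∀ p ∈ P, ∑ q, (p q : L) * y q.1 q.2 = 0) :
    IsCombM {z : Matrix ι ι ℚ | ∀ p ∈ P, ∑ q, p q * z q.1 q.2 = 0} y := by
  have h1 := comb_of_eqs P (fun q : ι × ι => y q.1 q.2) h
  obtain ⟨φ, hφ⟩ : ∃ φ : (ι × ι → L) →ₗ[L] Matrix ι ι L, ∀ x i j, φ x i j = x (i, j) :=
    ⟨{ toFun := fun x => Matrix.of fun i j => x (i, j)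
       map_add' := fun _ _ => rfl
       map_smul' := fun _ _ => rfl }, fun _ _ _ => rfl⟩
  have h2 := Submodule.mem_map_of_mem (f := φ) h1
  rw [Submodule.map_span] at h2
  have h3 : φ (fun q : ι × ι => y q.1 q.2) = y := by
    ext i j
    rw [hφ]
  rw [h3] at h2
  refine Submodule.span_mono ?_ h2
  rintro _ ⟨_, ⟨z, hz, rfl⟩, rfl⟩
  refine ⟨Matrix.of fun i j => z (i, j), fun p hp => hz p hp, ?_⟩
  ext i j
  rw [hφ]
  rfl

/-- The value of a derivation on a rational tensor. -/
lemma der_inL {n : ℕ} (y : Matrix ι ι L) (a : Tensor ι n ℚ) (v : Fin n → ι) :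
    der y (inL L a) v = ∑ q : ι × ι,
      (((dp (Fin n) (Matrix.single q.1 q.2 (1 : ℚ)) *ᵥ a) v : ℚ) : L) * y q.1 q.2 := by
  rw [der_eq, Matrix.mulVec, dotProduct]
  simp_rw [Pool.Agent.N738.TB.dp_expand y]
  simp_rw [Finset.sum_mul]
  rw [Finset.sum_comm]
  refine Finset.sum_congr rfl fun q _ => ?_
  rw [Matrix.mulVec, dotProduct, Rat.cast_sum, Finset.sum_mul]
  refine Finset.sum_congr rfl fun w _ => ?_
  have h1 : (Matrix.single q.1 q.2 (1 : L)) =
      (Matrix.single q.1 q.2 (1 : ℚ)).map (Rat.castHom L) := by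
    rw [Matrix.map_single, map_one]
  rw [h1, Pool.Agent.N738.TB.dp_map, Matrix.map_apply]
  unfold inL
  push_cast
  rw [Rat.coe_castHom]
  ring

lemma der_matL {n : ℕ} (y : Matrix ι ι ℚ) (t : Tensor ι n L) (v : Fin n → ι) :
    der (matL L y) t v = ∑ w, ((dp (Fin n) y v w : ℚ) : L) * t w := by
  rw [der_eq, Matrix.mulVec, dotProduct]
  refine Finset.sum_congr rfl fun w _ => ?_
  have h1 : matL L y = y.map (Rat.castHom L) := rfl
  rw [h1, Pool.Agent.N738.TB.dp_map, Matrix.map_apply]
  rfl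

lemma der_inL_rat {n : ℕ} (y : Matrix ι ι ℚ) (a : Tensor ι n ℚ) :
    der (matL L y) (inL L a) = inL L (der y a) := by
  funext v
  rw [der_matL]
  have h : der y a v = ∑ w, dp (Fin n) y v w * a w := by
    rw [der_eq, Matrix.mulVec, dotProduct]
  rw [inL, h]
  push_cast
  rfl

lemma IsComb.mono {m : Type} {T T' : Set (m → ℚ)} (h : T ⊆ T') {x : m → L} (hx : IsComb T x) :
    IsComb T' x := Submodule.span_mono (Set.image_mono h) hx

lemma IsComb.of_mem {m : Type} {T : Set (m → ℚ)} {a : m → ℚ} (h : a ∈ T) : IsComb T (inL L a) :=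
  Submodule.subset_span ⟨a, h, rfl⟩

lemma IsComb.ind {m : Type} {T : Set (m → ℚ)} {V : Submodule L (m → L)}
    (h : ∀ a ∈ T, inL L a ∈ V) {x : m → L} (hx : IsComb T x) : x ∈ V :=
  (Submodule.span_le.2 (by rintro _ ⟨a, ha, rfl⟩; exact h a ha)) hx

lemma IsCombM.ind {T : Set (Matrix ι ι ℚ)} {V : Submodule L (Matrix ι ι L)}
    (h : ∀ a ∈ T, matL L a ∈ V) {x : Matrix ι ι L} (hx : IsCombM T x) : x ∈ V :=
  (Submodule.span_le.2 (by rintro _ ⟨a, ha, rfl⟩; exact h a ha)) hx

lemma IsCombM.mono {T T' : Set (Matrix ι ι ℚ)} (h : T ⊆ T') {x : Matrix ι ι L}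
    (hx : IsCombM T x) : IsCombM T' x := Submodule.span_mono (Set.image_mono h) hx

lemma IsCombM.of_mem {T : Set (Matrix ι ι ℚ)} {a : Matrix ι ι ℚ} (h : a ∈ T) :
    IsCombM T (matL L a) := Submodule.subset_span ⟨a, h, rfl⟩

lemma IsCombM.add {T : Set (Matrix ι ι ℚ)} {x y : Matrix ι ι L} (hx : IsCombM T x)
    (hy : IsCombM T y) : IsCombM T (x + y) := Submodule.add_mem _ hx hy

end rat

section killer

variable {L : Type} [Field L] {n : ℕ}

/-- The tensors killed by `y`. -/
def kerT (n : ℕ) (y : Matrix ι ι L) : Submodule L (Tensor ι n L) where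
  carrier := {t | der y t = 0}
  zero_mem' := by
    change der y 0 = 0
    rw [der_eq, Matrix.mulVec_zero]
  add_mem' {a b} ha hb := by
    change der y (a + b) = 0
    rw [der_eq, Matrix.mulVec_add, ← der_eq, ← der_eq, show der y a = 0 from ha,
      show der y b = 0 from hb, add_zero]
  smul_mem' c a ha := by
    change der y (c • a) = 0
    rw [der_eq, Matrix.mulVec_smul, ← der_eq, show der y a = 0 from ha, smul_zero]

lemma mem_kerT {y : Matrix ι ι L} {t : Tensor ι n L} : t ∈ kerT n y ↔ der y t = 0 := Iff.rfl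

lemma der_add_left (x y : Matrix ι ι L) (t : Tensor ι n L) :
    der (x + y) t = der x t + der y t := by
  funext v
  simp only [der, Pi.add_apply, Matrix.add_apply, add_mul, Finset.sum_add_distrib]

lemma der_smul_left (c : L) (y : Matrix ι ι L) (t : Tensor ι n L) :
    der (c • y) t = c • der y t := by
  funext v
  simp only [der, Pi.smul_apply, Matrix.smul_apply, smul_eq_mul, Finset.mul_sum, mul_assoc]

lemma der_zero_left (t : Tensor ι n L) : der (0 : Matrix ι ι L) t = 0 := by
  funext v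
  simp [der]

/-- The matrices which kill `t`. -/
def kerM (t : Tensor ι n L) : Submodule L (Matrix ι ι L) where
  carrier := {y | der y t = 0}
  zero_mem' := der_zero_left t
  add_mem' {a b} ha hb := by
    change der (a + b) t = 0
    rw [der_add_left, show der a t = 0 from ha, show der b t = 0 from hb, add_zero]
  smul_mem' c a ha := by
    change der (c • a) t = 0
    rw [der_smul_left, show der a t = 0 from ha, smul_zero]

lemma mem_kerM {y : Matrix ι ι L} {t : Tensor ι n L} : y ∈ kerM t ↔ der y t = 0 := Iff.rfl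

variable {Γ : Type} [Group Γ]

variable (ρ : Γ →* Matrix ι ι L) (χ : Γ →* L) in
/-- The Lie algebra as a subspace. -/
def lieSub : Submodule L (Matrix ι ι L) where
  carrier := {y | InLie ρ χ y}
  zero_mem' _ t _ := der_zero_left t
  add_mem' {a b} ha hb n t ht := by rw [der_add_left, ha n t ht, hb n t ht, add_zero]
  smul_mem' c a ha n t ht := by rw [der_smul_left, ha n t ht, smul_zero]

lemma mem_lieSub {ρ : Γ →* Matrix ι ι L} {χ : Γ →* L} {y : Matrix ι ι L} :
    y ∈ lieSub ρ χ ↔ InLie ρ χ y := Iff.rfl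

end killer

end Pool.Agent.N202.CF
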