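import Pool.Agent.N202.CF.Conv

/-!
# The core: common forms of Lie algebras
-/

set_option linter.unusedSectionVars false

namespace Pool.Agent.N202.CF

open Matrix Filter Topology
open Pool.Agent.N996.BP Pool.Agent.N202.TB

variable {ι : Type} [Fintype ι] [DecidableEq ι] {Γ : Type} [Group Γ] {ℓ : ℕ} [Fact ℓ.Prime]
  {B : Matrix ι ι ℚ} {E C : Set (Matrix ι ι ℚ)} {ρ : Γ →* Matrix ι ι ℚ_[ℓ]} {χ : Γ →* ℚ_[ℓ]}

/-- All indices have degree one. -/
abbrev dg (ι : Type) : ι → ℕ := fun _ => 1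

section single

variable (h : Known B E C ℓ ρ χ)
include h

lemma Known.gal : GalArr (dg ι) (fun s => ρ s) (fun s => χ s) where
  one := map_one ρ
  mul := map_mul ρ
  χone := map_one χ
  χmul := map_mul χ
  deg _ _ _ _ := rfl
  cont := h.cont

omit h

lemma tateArr_iff {n j : ℕ} (hn : n + 1 = 2 * j) (t : Tensor ι (n + 1) ℚ_[ℓ]) :
    TateArr (dg ι) (fun s => ρ s) (fun s => χ s) n j t ↔ HasTwist ρ χ j t := by
  constructor
  · rintro ⟨_, h⟩
    exact h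
  · intro h
    refine ⟨fun w _ => ?_, h⟩
    simp [hn]

lemma act_vec2 (g A : Matrix ι ι ℚ_[ℓ]) : act g (vec2 A) = vec2 (g * A * gᵀ) := kp_two g A

lemma der_vec2 (y A : Matrix ι ι ℚ_[ℓ]) : der y (vec2 A) = vec2 (y * A + A * yᵀ) := by
  rw [der_eq]
  exact dp_vec2 steps y A

lemma rho_inv (s : Γ) : ρ s * ρ s⁻¹ = 1 := by rw [← map_mul, mul_inv_cancel, map_one]

lemma rho_inv' (s : Γ) : ρ s⁻¹ * ρ s = 1 := by rw [← map_mul, inv_mul_cancel, map_one]

lemma chi_ne (s : Γ) : χ s ≠ 0 := by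
  intro h
  have h1 : χ (s * s⁻¹) = 1 := by rw [mul_inv_cancel, map_one]
  rw [map_mul, h, zero_mul] at h1
  exact zero_ne_one h1

include h

lemma Known.act_conj (s : Γ) (M : Matrix ι ι ℚ_[ℓ]) :
    act (ρ s) (vec2 (M * matL ℚ_[ℓ] B)) = χ s • vec2 (ρ s * M * ρ s⁻¹ * matL ℚ_[ℓ] B) := by
  rw [act_vec2, ← map_smul]
  congr 1
  calc ρ s * (M * matL ℚ_[ℓ] B) * (ρ s)ᵀ =
      ρ s * M * (ρ s⁻¹ * ρ s) * matL ℚ_[ℓ] B * (ρ s)ᵀ := by
        rw [rho_inv', Matrix.mul_one]; simp only [Matrix.mul_assoc]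
    _ = ρ s * M * ρ s⁻¹ * (ρ s * matL ℚ_[ℓ] B * (ρ s)ᵀ) := by simp only [Matrix.mul_assoc]
    _ = _ := by rw [h.form, Matrix.mul_smul]

variable {Q : Matrix ι ι ℚ} (hBQ : B * Q = 1)
include hBQ

omit h in
lemma BQL : matL ℚ_[ℓ] B * matL ℚ_[ℓ] Q = 1 := by rw [← matL_mul, hBQ, matL_one]

omit h in
lemma QBL : matL ℚ_[ℓ] Q * matL ℚ_[ℓ] B = 1 := mul_eq_one_comm.1 (BQL hBQ)

/-- The linear isomorphism between matrices and tensors of degree two. -/
noncomputable def phi : Matrix ι ι ℚ_[ℓ] ≃ₗ[ℚ_[ℓ]] Tensor ι 2 ℚ_[ℓ] :=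
  LinearEquiv.trans
    { toFun := fun M => M * matL ℚ_[ℓ] B
      invFun := fun M => M * matL ℚ_[ℓ] Q
      map_add' := fun M N => Matrix.add_mul M N _
      map_smul' := fun c M => Matrix.smul_mul c M _
      left_inv := fun M => by
        change M * matL ℚ_[ℓ] B * matL ℚ_[ℓ] Q = M
        rw [Matrix.mul_assoc, BQL hBQ, Matrix.mul_one]
      right_inv := fun M => by
        change M * matL ℚ_[ℓ] Q * matL ℚ_[ℓ] B = M
        rw [Matrix.mul_assoc, QBL hBQ, Matrix.mul_one] } vec2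

lemma phi_apply (M : Matrix ι ι ℚ_[ℓ]) : phi hBQ M = vec2 (M * matL ℚ_[ℓ] B) := rfl

lemma Known.act_phi (s : Γ) (M : Matrix ι ι ℚ_[ℓ]) :
    act (ρ s) (phi hBQ M) = χ s • phi hBQ (ρ s * M * ρ s⁻¹) := h.act_conj s M

lemma Known.adss : AdSS (fun s => ρ s) := by
  intro Δ hΔ S hS
  obtain ⟨S', hS', hc⟩ := h.semi 2 Δ hΔ (S.map (phi hBQ).toLinearMap) (by
    rintro s hs _ ⟨x, hx, rfl⟩
    change act (ρ s) (phi hBQ x) ∈ _
    rw [h.act_phi hBQ]
    exact Submodule.smul_mem _ _ ⟨_, hS s hs x hx, rfl⟩)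
  refine ⟨S'.comap (phi hBQ).toLinearMap, ?_, ?_⟩
  · intro g hg x hx
    change phi hBQ (ρ g * x * ρ g⁻¹) ∈ S'
    have h1 : phi hBQ (ρ g * x * ρ g⁻¹) = (χ g)⁻¹ • act (ρ g) (phi hBQ x) := by
      rw [h.act_phi hBQ, smul_smul, inv_mul_cancel₀ (chi_ne g), one_smul]
    rw [h1]
    exact Submodule.smul_mem _ _ (hS' g hg _ hx)
  · have h1 : Submodule.map (phi hBQ).toLinearMap (Submodule.comap (phi hBQ).toLinearMap S') = S' :=
      Submodule.map_comap_eq_of_surjective (phi hBQ).surjective _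
    rw [← h1] at hc
    exact (Submodule.orderIsoMapComap (phi (ℓ := ℓ) hBQ)).isCompl_iff.2 hc

end single

section kil

variable {L : Type} [Field L] [CharZero L]

lemma inL_rat {m : Type} (a : m → ℚ) : inL ℚ a = a := by
  funext i
  exact Rat.cast_id _

/-- The matrices which kill rational tensors are combinations of rational ones. -/
lemma kil_iff (𝒯 : ∀ n, Set (Tensor ι n ℚ)) (y : Matrix ι ι L) :
    IsCombM {z : Matrix ι ι ℚ | ∀ n, ∀ a ∈ 𝒯 n, der z a = 0} y ↔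
      ∀ n, ∀ a ∈ 𝒯 n, der y (inL L a) = 0 := by
  constructor
  · intro h n a ha
    refine h.ind (V := kerM (inL L a)) fun z hz => ?_
    rw [mem_kerM, der_inL_rat, hz n a ha]
    funext v
    exact Rat.cast_zero
  · intro h
    refine (combM_of_eqs {p | ∃ (n : ℕ) (a : Tensor ι n ℚ) (v : Fin n → ι), a ∈ 𝒯 n ∧
      p = fun q => (dp (Fin n) (Matrix.single q.1 q.2 (1 : ℚ)) *ᵥ a) v} y ?_).mono ?_
    · rintro _ ⟨n, a, v, ha, rfl⟩
      rw [← der_inL, h n a ha]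
      rfl
    · intro z hz n a ha
      funext v
      have h1 := der_inL (L := ℚ) z a v
      rw [inL_rat] at h1
      rw [h1, Pi.zero_apply]
      refine Eq.trans (Finset.sum_congr rfl fun q _ => ?_) (hz _ ⟨n, a, v, ha, rfl⟩)
      rw [Rat.cast_id]

/-- The tensors which are killed by rational matrices are combinations of rational ones. -/
lemma kilt_iff (G : Set (Matrix ι ι ℚ)) {n : ℕ} (t : Tensor ι n L) :
    IsComb {a : Tensor ι n ℚ | ∀ y ∈ G, der y a = 0} t ↔ ∀ y ∈ G, der (matL L y) t = 0 := by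
  constructor
  · intro h y hy
    refine h.ind (V := kerT n (matL L y)) fun a ha => ?_
    rw [mem_kerT, der_inL_rat, ha y hy]
    funext v
    exact Rat.cast_zero
  · intro h
    refine (comb_of_eqs {p | ∃ y ∈ G, ∃ v : Fin n → ι, p = fun w => dp (Fin n) y v w} t ?_).mono ?_
    · rintro _ ⟨y, hy, v, rfl⟩
      have h1 := congrFun (h y hy) v
      rw [der_matL] at h1
      exact h1
    · intro a ha y hy
      funext v
      have h1 := ha _ ⟨y, hy, v, rfl⟩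
      rw [der_eq, Matrix.mulVec, dotProduct]
      exact h1

end kil

section logs

variable (h : Known B E C ℓ ρ χ) {U : Subgroup Γ} {Y : Γ → Matrix ι ι ℚ_[ℓ]} {lam : Γ → ℚ_[ℓ]}
  (hL : Logs (fun s => ρ s) (fun s => χ s) U Y lam)
include h hL

lemma lie_inLie {y : Matrix ι ι ℚ_[ℓ]} (hy : y ∈ lie (dg ι) U Y lam) : InLie ρ χ y := by
  have h1 : lie (dg ι) U Y lam ≤ lieSub ρ χ := by
    refine lie_le fun u hu n t ht => ?_
    cases n with
    | zero => funext v; simp [der]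
    | succ n =>
      obtain ⟨j, hn, ht⟩ := ht
      rw [der_eq]
      exact hL.kill_tate h.gal steps hu ((tateArr_iff hn t).2 ht)
  exact h1 hy

lemma tate_of_lie {n j : ℕ} (hn : n + 1 = 2 * j) {t : Tensor ι (n + 1) ℚ_[ℓ]}
    (ht : ∀ u ∈ U, der (Yt (dg ι) Y lam u) t = 0) : HasTwist ρ χ j t := by
  rw [← tateArr_iff hn t]
  refine hL.tate_of_kill h.gal steps (fun w _ => by simp [hn]) fun u hu => ?_
  rw [← der_eq]
  exact ht u hu

end logs

section inlie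

variable (h : Known B E C ℓ ρ χ)
include h

lemma tate_B : IsTate ρ χ (vec2 (matL ℚ_[ℓ] B)) := by
  refine ⟨1, rfl, ⊤, inferInstance, fun s _ => ?_⟩
  rw [act_vec2, h.form, map_smul, pow_one]

lemma tate_e {e : Matrix ι ι ℚ} (he : e ∈ E) : IsTate ρ χ (vec2 (matL ℚ_[ℓ] (e * B))) := by
  obtain ⟨Δ, hΔ, hc⟩ := h.endo e he
  refine ⟨1, rfl, Δ, hΔ, fun s hs => ?_⟩
  rw [matL_mul, h.act_conj, ← hc s hs, Matrix.mul_assoc (matL ℚ_[ℓ] e), rho_inv, Matrix.mul_one,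
    pow_one]

omit h in
lemma der_skew {y : Matrix ι ι ℚ_[ℓ]} :
    der y (vec2 (matL ℚ_[ℓ] B)) = 0 ↔ y * matL ℚ_[ℓ] B + matL ℚ_[ℓ] B * yᵀ = 0 := by
  rw [der_vec2, LinearEquiv.map_eq_zero_iff]

variable {Q : Matrix ι ι ℚ} (hBQ : B * Q = 1)
include hBQ

omit h in
lemma der_comm {y z : Matrix ι ι ℚ_[ℓ]} (hy : y * matL ℚ_[ℓ] B + matL ℚ_[ℓ] B * yᵀ = 0) :
    der y (vec2 (z * matL ℚ_[ℓ] B)) = 0 ↔ y * z = z * y := by
  have h1 : matL ℚ_[ℓ] B * yᵀ = -(y * matL ℚ_[ℓ] B) := eq_neg_of_add_eq_zero_right hy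
  rw [der_vec2, LinearEquiv.map_eq_zero_iff, Matrix.mul_assoc z, h1, Matrix.mul_neg,
    ← Matrix.mul_assoc, ← Matrix.mul_assoc, ← Matrix.neg_mul, ← Matrix.add_mul]
  constructor
  · intro h2
    have h3 := congrArg (fun M => M * matL ℚ_[ℓ] Q) h2
    simp only [Matrix.mul_assoc, BQL hBQ, Matrix.mul_one, Matrix.zero_mul] at h3
    exact eq_of_sub_eq_zero (by rw [sub_eq_add_neg]; exact h3)
  · intro h2
    rw [h2, add_neg_cancel, Matrix.zero_mul]

end inlie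

end Pool.Agent.N202.CF
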