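import Pool.Agent.N202.CF.Core

/-!
# The core: the theorem on the Lie algebras
-/

set_option linter.unusedSectionVars false

namespace Pool.Agent.N202.CF

open Matrix Filter Topology
open Pool.Agent.N996.BP Pool.Agent.N202.TB

variable {ι : Type} [Fintype ι] [DecidableEq ι] {Γ : Type} [Group Γ] {ℓ : ℕ} [Fact ℓ.Prime]
  {B : Matrix ι ι ℚ} {E C : Set (Matrix ι ι ℚ)} {ρ : Γ →* Matrix ι ι ℚ_[ℓ]} {χ : Γ →* ℚ_[ℓ]}

variable (B E) in
/-- The equations. -/
def TT (T : Set (Tensor ι 4 ℚ)) : ∀ n, Set (Tensor ι n ℚ)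
  | 2 => {a | a = vec2 B ∨ ∃ e ∈ E, a = vec2 (e * B)}
  | 4 => T
  | _ => ∅

section

variable (h : Known B E C ℓ ρ χ) {T : Set (Tensor ι 4 ℚ)}
  (hT : ∀ t : Tensor ι 4 ℚ_[ℓ], IsTate ρ χ t ↔ IsComb T t)
include h hT

/-- The Lie algebra satisfies the equations. -/
lemma kil_of_inLie {y : Matrix ι ι ℚ_[ℓ]} (hy : InLie ρ χ y) :
    ∀ n, ∀ a ∈ TT B E T n, der y (inL ℚ_[ℓ] a) = 0 := by
  intro n a ha
  match n, a, ha with
  | 2, a, ha =>
    rcases ha with rfl | ⟨e, he, rfl⟩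
    · exact hy 2 _ (tate_B h)
    · exact hy 2 _ (tate_e h he)
  | 4, a, ha => exact hy 4 _ ((hT _).2 (IsComb.of_mem ha))

variable {Q : Matrix ι ι ℚ} (hBQ : B * Q = 1)
include hBQ

variable {U : Subgroup Γ} {Y : Γ → Matrix ι ι ℚ_[ℓ]} {lam : Γ → ℚ_[ℓ]}
  (hL : Logs (fun s => ρ s) (fun s => χ s) U Y lam)

section kil

variable {y : Matrix ι ι ℚ_[ℓ]} (hy : ∀ n, ∀ a ∈ TT B E T n, der y (inL ℚ_[ℓ] a) = 0)
include hy

omit h hT hBQ in
lemma kil_skew : y * matL ℚ_[ℓ] B + matL ℚ_[ℓ] B * yᵀ = 0 := by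
  rw [← der_skew]
  exact hy 2 (vec2 B) (Or.inl rfl)

omit h hT in
lemma kil_comm {x : Matrix ι ι ℚ_[ℓ]} (hx : IsCombM E x) : y * x = x * y := by
  have h1 : x ∈ (LinearMap.ker (LinearMap.mulLeft ℚ_[ℓ] y - LinearMap.mulRight ℚ_[ℓ] y)) := by
    refine hx.ind fun e he => ?_
    rw [LinearMap.mem_ker, LinearMap.sub_apply, LinearMap.mulLeft_apply, LinearMap.mulRight_apply,
      sub_eq_zero, ← der_comm hBQ (kil_skew hy), ← matL_mul]
    exact hy 2 (vec2 (e * B)) (Or.inr ⟨e, he, rfl⟩)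
  rw [LinearMap.mem_ker, LinearMap.sub_apply, LinearMap.mulLeft_apply, LinearMap.mulRight_apply,
    sub_eq_zero] at h1
  exact h1

end kil

include hL

omit hT in
/-- Matrices which commute with the logarithms. -/
lemma comb_of_comm {x : Matrix ι ι ℚ_[ℓ]}
    (hx : ∀ u ∈ U, Yt (dg ι) Y lam u * x = x * Yt (dg ι) Y lam u) : IsCombM E x := by
  have h1 : HasTwist ρ χ 1 (vec2 (x * matL ℚ_[ℓ] B)) := by
    refine tate_of_lie h hL (n := 1) (j := 1) rfl fun u hu => ?_
    have hs := hx u hu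
    exact (der_comm hBQ (der_skew.1 (lie_inLie h hL (mem_lie hu) 2 _ (tate_B h)))).2 hs
  obtain ⟨Δ, hΔ, h2⟩ := h1
  refine h.comm Δ hΔ x fun s hs => ?_
  have h3 := h2 s hs
  rw [h.act_conj, pow_one] at h3
  have h4 := smul_right_injective _ (chi_ne (χ := χ) s) h3
  have h5 := vec2.injective h4
  have h6 := congrArg (fun M => M * matL ℚ_[ℓ] Q * ρ s) h5
  simp only [Matrix.mul_assoc] at h6
  rw [← Matrix.mul_assoc (matL ℚ_[ℓ] B), BQL hBQ, Matrix.one_mul, rho_inv', Matrix.mul_one] at h6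
  exact h6.symm

/-- **The splitting.** -/
lemma split {y : Matrix ι ι ℚ_[ℓ]} (hy : ∀ n, ∀ a ∈ TT B E T n, der y (inL ℚ_[ℓ] a) = 0) :
    ∃ a x, y = a + x ∧ a ∈ lie (dg ι) U Y lam ∧ IsCombM E x := by
  obtain ⟨p, hp⟩ := exists_pr steps hL h.gal (h.adss hBQ)
  have hsk : ∀ u ∈ U, Yt (dg ι) Y lam u * matL ℚ_[ℓ] B + matL ℚ_[ℓ] B * (Yt (dg ι) Y lam u)ᵀ = 0 :=
    fun u hu => kil_skew (kil_of_inLie h hT (lie_inLie h hL (mem_lie hu)))
  set α : Tensor ι 4 ℚ_[ℓ] := arr4 (opP (matL ℚ_[ℓ] B) (matL ℚ_[ℓ] Q) p *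
    kp (Fin 2) (matL ℚ_[ℓ] B)) with hα
  have hα1 : ∀ y : Matrix ι ι ℚ_[ℓ], y * matL ℚ_[ℓ] B + matL ℚ_[ℓ] B * yᵀ = 0 →
      (der y α = 0 ↔ ∀ z, p (y * z - z * y) = y * p z - p z * y) := by
    intro y hy
    rw [der_eq, hα, dp_arr4_eq_zero steps (BQL hBQ) hy, opP_comm steps (BQL hBQ) p hy]
  have hα2 : IsComb T α := by
    rw [← hT]
    exact ⟨2, rfl, tate_of_lie h hL (n := 3) (j := 2) rfl fun u hu =>
      (hα1 _ (hsk u hu)).2 (hp.comm u hu)⟩
  have hα3 : ∀ z, p (y * z - z * y) = y * p z - p z * y :=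
    (hα1 y (kil_skew hy)).1 (hα2.ind (V := kerT 4 y) fun a ha => hy 4 a ha)
  refine ⟨p y, y - p y, by abel, hp.mem y, comb_of_comm h hBQ hL fun u hu => ?_⟩
  set v := Yt (dg ι) Y lam u
  have h1 := hα3 v
  rw [hp.id v (mem_lie hu)] at h1
  have h2 := hp.comm u hu y
  change p (v * y - y * v) = v * p y - p y * v at h2
  have h3 : v * y - y * v = -(y * v - v * y) := by abel
  rw [h3, map_neg, h1] at h2
  rw [Matrix.mul_sub, Matrix.sub_mul, ← sub_eq_zero]
  have h4 : v * y - v * p y - (y * v - p y * v) = (v * y - y * v) - (v * p y - p y * v) := by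
    abel
  rw [h4, ← h2]
  abel

omit hT in
/-- The span of the logarithms is a Lie algebra. -/
lemma lie_bracket {a b : Matrix ι ι ℚ_[ℓ]} (ha : a ∈ lie (dg ι) U Y lam)
    (hb : b ∈ lie (dg ι) U Y lam) : a * b - b * a ∈ lie (dg ι) U Y lam := by
  induction ha using Submodule.span_induction with
  | mem x hx =>
    obtain ⟨u, hu, rfl⟩ := hx
    have h1 := ad_stable steps hL h.gal (V := lie (dg ι) U Y lam)
      (fun g hg x hx => lie_stable hL h.gal hg hx) hu hb
    have h2 : Yt (dg ι) Y lam u * b - b * Yt (dg ι) Y lam u = Y u * b - b * Y u := by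
      rw [Yt, Matrix.sub_mul, Matrix.mul_sub, Matrix.smul_mul, Matrix.mul_smul,
        DD_comm (deg := dg ι) (y := b) (fun i j hne => absurd rfl hne)]
      abel
    rw [h2]
    exact h1
  | zero =>
    rw [Matrix.mul_zero, Matrix.zero_mul, sub_zero]
    exact Submodule.zero_mem _
  | add x y _ _ hx hy =>
    have h1 : (x + y) * b - b * (x + y) = (x * b - b * x) + (y * b - b * y) := by
      rw [Matrix.add_mul, Matrix.mul_add]; abel
    rw [h1]
    exact Submodule.add_mem _ hx hy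
  | smul c x _ hx =>
    have h1 : (c • x) * b - b * (c • x) = c • (x * b - b * x) := by
      rw [Matrix.smul_mul, Matrix.mul_smul, smul_sub]
    rw [h1]
    exact Submodule.smul_mem _ _ hx

end

/-- The span of the brackets of members of `V`. -/
noncomputable def brs {L : Type} [Field L] (V : Submodule L (Matrix ι ι L)) :
    Submodule L (Matrix ι ι L) := Submodule.span L {x | ∃ a ∈ V, ∃ b ∈ V, x = a * b - b * a}

/-- Brackets of combinations of rational matrices. -/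
lemma brs_le {L : Type} [Field L] [CharZero L] {S : Set (Matrix ι ι ℚ)} {W : Submodule L (Matrix ι ι L)}
    (hW : ∀ a ∈ S, ∀ b ∈ S, matL L (a * b - b * a) ∈ W) {V : Submodule L (Matrix ι ι L)}
    (hV : ∀ a ∈ V, IsCombM S a) : brs V ≤ W := by
  have key : ∀ a b : Matrix ι ι L, IsCombM S a → IsCombM S b → a * b - b * a ∈ W := by
    intro a b ha hb
    induction ha using Submodule.span_induction with
    | mem x hx =>
      obtain ⟨x, hx, rfl⟩ := hx
      induction hb using Submodule.span_induction with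
      | mem y hy =>
        obtain ⟨y, hy, rfl⟩ := hy
        rw [← matL_mul, ← matL_mul, ← matL_sub]
        exact hW x hx y hy
      | zero =>
        rw [Matrix.mul_zero, Matrix.zero_mul, sub_zero]
        exact Submodule.zero_mem _
      | add y z _ _ hy hz =>
        have h1 : matL L x * (y + z) - (y + z) * matL L x =
            (matL L x * y - y * matL L x) + (matL L x * z - z * matL L x) := by
          rw [Matrix.add_mul, Matrix.mul_add]; abel
        rw [h1]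
        exact Submodule.add_mem _ hy hz
      | smul c y _ hy =>
        have h1 : matL L x * (c • y) - (c • y) * matL L x = c • (matL L x * y - y * matL L x) := by
          rw [Matrix.smul_mul, Matrix.mul_smul, smul_sub]
        rw [h1]
        exact Submodule.smul_mem _ _ hy
    | zero =>
      rw [Matrix.mul_zero, Matrix.zero_mul, sub_zero]
      exact Submodule.zero_mem _
    | add y z _ _ hy hz =>
      have h1 : (y + z) * b - b * (y + z) = (y * b - b * y) + (z * b - b * z) := by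
        rw [Matrix.add_mul, Matrix.mul_add]; abel
      rw [h1]
      exact Submodule.add_mem _ hy hz
    | smul c y _ hy =>
      have h1 : (c • y) * b - b * (c • y) = c • (y * b - b * y) := by
        rw [Matrix.smul_mul, Matrix.mul_smul, smul_sub]
      rw [h1]
      exact Submodule.smul_mem _ _ hy
  refine Submodule.span_le.2 ?_
  rintro _ ⟨a, ha, b, hb, rfl⟩
  exact key a b (hV a ha) (hV b hb)

section

variable (h : Known B E C ℓ ρ χ) {U : Subgroup Γ} {Y : Γ → Matrix ι ι ℚ_[ℓ]} {lam : Γ → ℚ_[ℓ]}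
  (hL : Logs (fun s => ρ s) (fun s => χ s) U Y lam) {Q : Matrix ι ι ℚ} (hBQ : B * Q = 1)
include h hL hBQ

/-- The Lie algebra is the sum of its commutator and its centre. -/
lemma lie_decomp {a : Matrix ι ι ℚ_[ℓ]} (ha : a ∈ lie (dg ι) U Y lam) :
    ∃ d c, a = d + c ∧ d ∈ brs (lie (dg ι) U Y lam) ∧ c ∈ lie (dg ι) U Y lam ∧
      ∀ u ∈ U, Yt (dg ι) Y lam u * c = c * Yt (dg ι) Y lam u := by
  have hD : brs (lie (dg ι) U Y lam) ≤ lie (dg ι) U Y lam := by
    refine Submodule.span_le.2 ?_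
    rintro _ ⟨a, ha, b, hb, rfl⟩
    exact lie_bracket h hBQ hL ha hb
  obtain ⟨S', hS', hc⟩ := h.adss hBQ U hL.fin (brs (lie (dg ι) U Y lam)) (by
    intro g hg x hx
    induction hx using Submodule.span_induction with
    | mem x hx =>
      obtain ⟨a, ha, b, hb, rfl⟩ := hx
      refine Submodule.subset_span ⟨_, lie_stable hL h.gal hg ha, _, lie_stable hL h.gal hg hb, ?_⟩
      have h1 : ∀ a b : Matrix ι ι ℚ_[ℓ], ρ g * (a * b) * ρ g⁻¹ =
          (ρ g * a * ρ g⁻¹) * (ρ g * b * ρ g⁻¹) := by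
        intro a b
        calc ρ g * (a * b) * ρ g⁻¹ = ρ g * a * (ρ g⁻¹ * ρ g) * b * ρ g⁻¹ := by
              rw [rho_inv', Matrix.mul_one]; simp only [Matrix.mul_assoc]
          _ = _ := by simp only [Matrix.mul_assoc]
      rw [Matrix.mul_sub, Matrix.sub_mul, h1, h1]
    | zero => rw [Matrix.mul_zero, Matrix.zero_mul]; exact Submodule.zero_mem _
    | add a b _ _ ha hb =>
      rw [Matrix.mul_add, Matrix.add_mul]
      exact Submodule.add_mem _ ha hb
    | smul c a _ ha =>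
      rw [Matrix.mul_smul, Matrix.smul_mul]
      exact Submodule.smul_mem _ _ ha)
  have h1 : a ∈ brs (lie (dg ι) U Y lam) ⊔ S' := by
    rw [hc.sup_eq_top]
    exact Submodule.mem_top
  obtain ⟨d, hd, c, hcS, rfl⟩ := Submodule.mem_sup.1 h1
  have hcl : c ∈ lie (dg ι) U Y lam := by
    have h2 := Submodule.sub_mem _ ha (hD hd)
    rwa [add_sub_cancel_left] at h2
  refine ⟨d, c, rfl, hd, hcl, fun u hu => ?_⟩
  have h2 : Y u * c - c * Y u ∈ S' := ad_stable steps hL h.gal hS' hu hcS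
  have h3 : Yt (dg ι) Y lam u * c - c * Yt (dg ι) Y lam u = Y u * c - c * Y u := by
    rw [Yt, Matrix.sub_mul, Matrix.mul_sub, Matrix.smul_mul, Matrix.mul_smul,
      DD_comm (deg := dg ι) (y := c) (fun i j hne => absurd rfl hne)]
    abel
  have h4 : Yt (dg ι) Y lam u * c - c * Yt (dg ι) Y lam u ∈ brs (lie (dg ι) U Y lam) :=
    Submodule.subset_span ⟨_, mem_lie hu, c, hcl, rfl⟩
  rw [← h3] at h2
  exact eq_of_sub_eq_zero ((Submodule.disjoint_def.1 hc.disjoint) _ h4 h2)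

end

section final

variable {T : Set (Tensor ι 4 ℚ)}

variable (B E C T) in
/-- The rational form of the Lie algebra. -/
def GG' : Set (Matrix ι ι ℚ) :=
  {x | ∃ a, (∀ n, ∀ t ∈ TT B E T n, der a t = 0) ∧ ∃ b, (∀ n, ∀ t ∈ TT B E T n, der b t = 0) ∧
    x = a * b - b * a} ∪ C

/-- **The core**: the Lie algebra has a rational form given by the Tate tensors of degree four. -/
theorem lie_form {Q : Matrix ι ι ℚ} (hBQ : B * Q = 1) (h : Known B E C ℓ ρ χ)
    (hT : ∀ t : Tensor ι 4 ℚ_[ℓ], IsTate ρ χ t ↔ IsComb T t) (y : Matrix ι ι ℚ_[ℓ]) :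
    InLie ρ χ y ↔ IsCombM (GG' B E C T) y := by
  obtain ⟨U, Y, lam, hL⟩ := exists_logs steps h.gal
  have hcen : ∀ z : Matrix ι ι ℚ_[ℓ], InLie ρ χ z → IsCombM E z → IsCombM C z := fun z hz hE =>
    (h.centre z).1 ⟨hz, fun y hy => (kil_comm hBQ (kil_of_inLie h hT hy) hE).symm⟩
  constructor
  · intro hy
    obtain ⟨a, x, rfl, ha, hx⟩ := split h hT hBQ hL (kil_of_inLie h hT hy)
    have hxl : InLie ρ χ x := by
      have h1 := Submodule.sub_mem (lieSub ρ χ) (mem_lieSub.2 hy) (mem_lieSub.2 (lie_inLie h hL ha))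
      rw [add_sub_cancel_left] at h1
      exact h1
    obtain ⟨d, c, rfl, hd, hcl, hcc⟩ := lie_decomp h hL hBQ ha
    have hC : ∀ z : Matrix ι ι ℚ_[ℓ], IsCombM C z → IsCombM (GG' B E C T) z := fun z hz =>
      hz.mono Set.subset_union_right
    refine IsCombM.add (IsCombM.add ?_ ?_) (hC _ (hcen x hxl hx))
    · refine brs_le (S := {z | ∀ n, ∀ a ∈ TT B E T n, der z a = 0}) ?_ ?_ hd
      · intro a ha b hb
        exact Submodule.subset_span ⟨_, Or.inl ⟨a, ha, b, hb, rfl⟩, rfl⟩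
      · intro a ha
        rw [kil_iff]
        exact kil_of_inLie h hT (lie_inLie h hL ha)
    · exact hC _ (hcen c (lie_inLie h hL hcl) (comb_of_comm h hBQ hL hcc))
  · intro hy
    refine hy.ind (V := lieSub ρ χ) ?_
    rintro z (⟨a, ha, b, hb, rfl⟩ | hz)
    · have ha' := (kil_iff (L := ℚ_[ℓ]) (TT B E T) (matL ℚ_[ℓ] a)).1 (IsCombM.of_mem ha)
      have hb' := (kil_iff (L := ℚ_[ℓ]) (TT B E T) (matL ℚ_[ℓ] b)).1 (IsCombM.of_mem hb)
      obtain ⟨a1, x1, e1, h1, hx1⟩ := split h hT hBQ hL ha'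
      obtain ⟨b1, x2, e2, h2, hx2⟩ := split h hT hBQ hL hb'
      have h1' := kil_of_inLie h hT (lie_inLie h hL h1)
      have h2' := kil_of_inLie h hT (lie_inLie h hL h2)
      rw [matL_sub, matL_mul, matL_mul]
      have c1 := kil_comm hBQ h1' hx2
      have c2 := kil_comm hBQ h2' hx1
      have c3 := kil_comm hBQ hb' hx1
      rw [e2, Matrix.add_mul, Matrix.mul_add, c2, add_right_inj] at c3
      have h3 : matL ℚ_[ℓ] a * matL ℚ_[ℓ] b - matL ℚ_[ℓ] b * matL ℚ_[ℓ] a = a1 * b1 - b1 * a1 := by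
        rw [e1, e2]
        simp only [Matrix.add_mul, Matrix.mul_add]
        rw [c1, c2, c3]
        abel
      rw [h3]
      exact lie_inLie h hL (lie_bracket h hBQ hL h1 h2)
    · exact ((h.centre _).2 (IsCombM.of_mem hz)).1

/-- Tate tensors are the tensors killed by the Lie algebra. -/
theorem tate_form {G : Set (Matrix ι ι ℚ)} (h : Known B E C ℓ ρ χ)
    (hG : ∀ y : Matrix ι ι ℚ_[ℓ], InLie ρ χ y ↔ IsCombM G y) (m : ℕ) (t : Tensor ι (2 * m) ℚ_[ℓ]) :
    IsTate ρ χ t ↔ IsComb {a : Tensor ι (2 * m) ℚ | ∀ y ∈ G, der y a = 0} t := by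
  rw [kilt_iff]
  constructor
  · intro ht y hy
    exact (hG _).2 (IsCombM.of_mem hy) _ t ht
  · intro ht
    obtain ⟨U, Y, lam, hL⟩ := exists_logs steps h.gal
    cases m with
    | zero =>
      refine ⟨0, rfl, ⊤, inferInstance, fun s _ => ?_⟩
      rw [pow_zero, one_smul]
      haveI : IsEmpty (Fin (2 * 0)) := inferInstanceAs (IsEmpty (Fin 0))
      funext v
      change ∑ w, (∏ k, ρ s (v k) (w k)) * t w = t v
      rw [Fintype.sum_unique, Finset.univ_eq_empty, Finset.prod_empty, one_mul,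
        Subsingleton.elim v default]
    | succ m =>
      refine ⟨m + 1, rfl, ?_⟩
      refine tate_of_lie h hL (n := 2 * m + 1) (j := m + 1) (by ring) fun u hu => ?_
      have h1 := (hG _).1 (lie_inLie h hL (mem_lie hu))
      have h2 : Yt (dg ι) Y lam u ∈ kerM (L := ℚ_[ℓ]) t := h1.ind fun y hy => ht y hy
      exact h2

end final

end Pool.Agent.N202.CF
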