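import Mathlib

/-!
# Systems of `ℓ`-adic representations on one rational vector space: definitions

In the intended use `A` is an abelian variety over a number field `F ⊂ ℂ`, `V = H^1(A(ℂ), ℚ)` with a
basis indexed by `ι`, `Γ` the absolute Galois group of `F`, `ρ` its representation on the `ℓ`-adic
cohomology `V ⊗ ℚ_ℓ = H^1(A, ℚ_ℓ)` and `χ` the character of `Γ` on `ℚ_ℓ(-1)`.  The elements of
`V^(⊗ n)` are arrays of numbers with `n` indices in `ι`.
-/

namespace Pool.Agent.N202.CF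

variable {ι : Type} [Fintype ι] [DecidableEq ι]

/-- The tensors of degree `n` with coefficients in `L`: the elements of `L ⊗ V^(⊗ n)`. -/
abbrev Tensor (ι : Type) (n : ℕ) (L : Type) : Type := (Fin n → ι) → L

/-- A family of rational numbers as a family of elements of `L`. -/
def inL (L : Type) [Field L] {m : Type} (a : m → ℚ) : m → L := fun i => (a i : L)

/-- The element `x` of `L^m` is a linear combination of members of the set `T` of rational vectors. -/
def IsComb {L : Type} [Field L] {m : Type} (T : Set (m → ℚ)) (x : m → L) : Prop :=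
  x ∈ Submodule.span L (inL L '' T)

/-- A rational matrix as a matrix over `L`. -/
def matL (L : Type) [Field L] (M : Matrix ι ι ℚ) : Matrix ι ι L := M.map fun x => (x : L)

/-- The matrix `y` is a linear combination of members of the set `T` of rational matrices. -/
def IsCombM {L : Type} [Field L] (T : Set (Matrix ι ι ℚ)) (y : Matrix ι ι L) : Prop :=
  y ∈ Submodule.span L (matL L '' T)

/-- The action of the matrix `g` on tensors: `v₁ ⊗ ⋯ ⊗ vₙ ↦ g v₁ ⊗ ⋯ ⊗ g vₙ`. -/
def act {L : Type} [Field L] {n : ℕ} (g : Matrix ι ι L) (t : Tensor ι n L) : Tensor ι n L :=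
  fun v => ∑ w, (∏ k, g (v k) (w k)) * t w

/-- The action of the matrix `y` on tensors as a derivation:
`v₁ ⊗ ⋯ ⊗ vₙ ↦ ∑ k, v₁ ⊗ ⋯ ⊗ y vₖ ⊗ ⋯ ⊗ vₙ`. -/
def der {L : Type} [Field L] {n : ℕ} (y : Matrix ι ι L) (t : Tensor ι n L) : Tensor ι n L :=
  fun v => ∑ k, ∑ i, y (v k) i * t (Function.update v k i)

variable {Γ : Type} [Group Γ]

/-! ### Tate tensors and Lie algebras -/

section Tate

variable {L : Type} [Field L]

/-- The elements `s` of a subgroup of finite index multiply the tensor `t` by `χ(s)^j`. -/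
def HasTwist (ρ : Γ →* Matrix ι ι L) (χ : Γ →* L) {n : ℕ} (j : ℕ) (t : Tensor ι n L) : Prop :=
  ∃ Δ : Subgroup Γ, Δ.FiniteIndex ∧ ∀ s ∈ Δ, act (ρ s) t = χ s ^ j • t

/-- The tensor `t` of degree `n = 2 j` is a Tate tensor: the elements `s` of a subgroup of finite
index multiply it by `χ(s)^j`.  (For `V = H^1(A)` these are the Tate classes, of codimension `j`, in
the component `H^1(A)^(⊗ 2 j)` of the cohomology of `A^(2 j)`.) -/
def IsTate (ρ : Γ →* Matrix ι ι L) (χ : Γ →* L) {n : ℕ} (t : Tensor ι n L) : Prop :=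
  ∃ j, n = 2 * j ∧ HasTwist ρ χ j t

/-- The matrix `y` kills all Tate tensors of all degrees.  (Such `y` form the Lie algebra of the
`ℓ`-adic monodromy group, more precisely of its part acting trivially on `ℚ_ℓ(1)`, since the identity
component of this group is reductive.) -/
def InLie (ρ : Γ →* Matrix ι ι L) (χ : Γ →* L) (y : Matrix ι ι L) : Prop :=
  ∀ (n : ℕ) (t : Tensor ι n L), IsTate ρ χ t → der y t = 0

/-- Every subspace of `V^(⊗ n)` stable under a subgroup of finite index has a stable complement. -/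
def Semisimple (ρ : Γ →* Matrix ι ι L) (n : ℕ) : Prop :=
  ∀ Δ : Subgroup Γ, Δ.FiniteIndex → ∀ S : Submodule L (Tensor ι n L),
    (∀ s ∈ Δ, ∀ t ∈ S, act (ρ s) t ∈ S) →
    ∃ S' : Submodule L (Tensor ι n L), (∀ s ∈ Δ, ∀ t ∈ S', act (ρ s) t ∈ S') ∧ IsCompl S S'

end Tate

/-! ### The identity component of the Zariski closure -/

section Group

variable {k : Type} [Field k] {Ω : Type} [Field Ω] [Algebra k Ω]

/-- The value of a polynomial in the entries at the matrix `x`. -/
noncomputable def val (x : Matrix ι ι Ω) (f : MvPolynomial (ι × ι) Ω) : Ω :=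
  MvPolynomial.aeval (fun p => x p.1 p.2) f

/-- The polynomial `f` vanishes on the image of a subgroup of finite index: these polynomials are
the ideal of the identity component of the Zariski closure of the image of `ρ`. -/
def Vanishes (ρ : Γ →* Matrix ι ι k) (f : MvPolynomial (ι × ι) Ω) : Prop :=
  ∃ Δ : Subgroup Γ, Δ.FiniteIndex ∧ ∀ s ∈ Δ, val ((ρ s).map (algebraMap k Ω)) f = 0

/-- The matrix `g` is in the identity component of the Zariski closure of the image of `ρ`: all
polynomials in the entries that vanish on the image of a subgroup of finite index vanish at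
`g`. -/
def InIdentityComponent (ρ : Γ →* Matrix ι ι k) (g : Matrix ι ι Ω) : Prop :=
  ∀ f : MvPolynomial (ι × ι) Ω, Vanishes ρ f → val g f = 0

end Group

/-- The matrix `g` is a zero of all the polynomials in `S`. -/
def IsZeroOf (S : Set (MvPolynomial (ι × ι) ℚ)) {L : Type} [Field L] [Algebra ℚ L]
    (g : Matrix ι ι L) : Prop :=
  ∀ f ∈ S, MvPolynomial.aeval (fun p => g p.1 p.2) f = 0

/-! ### Abelian varieties -/

/-- The known properties of the representation `ρ` for an abelian variety: `B` is the (inverse)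
matrix of the Riemann form of a polarisation, `E` the set of the matrices of the endomorphisms of
`A` over the algebraic closure of `F` and `C` a set of rational matrices. -/
structure Known (B : Matrix ι ι ℚ) (E C : Set (Matrix ι ι ℚ)) (ℓ : ℕ) [Fact ℓ.Prime]
    (ρ : Γ →* Matrix ι ι ℚ_[ℓ]) (χ : Γ →* ℚ_[ℓ]) : Prop where
  /-- the Weil pairing -/
  form : ∀ s, ρ s * matL ℚ_[ℓ] B * (ρ s).transpose = χ s • matL ℚ_[ℓ] B
  /-- continuity -/
  cont : ∀ ε : ℝ, 0 < ε → ∃ Δ : Subgroup Γ, Δ.FiniteIndex ∧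
    ∀ s ∈ Δ, (∀ i j, ‖ρ s i j - (1 : Matrix ι ι ℚ_[ℓ]) i j‖ < ε) ∧ ‖χ s - 1‖ < ε
  /-- the endomorphisms are defined over finite extensions -/
  endo : ∀ e ∈ E, ∃ Δ : Subgroup Γ, Δ.FiniteIndex ∧
    ∀ s ∈ Δ, matL ℚ_[ℓ] e * ρ s = ρ s * matL ℚ_[ℓ] e
  /-- Faltings: matrices that commute with a subgroup of finite index come from endomorphisms -/
  comm : ∀ Δ : Subgroup Γ, Δ.FiniteIndex → ∀ M : Matrix ι ι ℚ_[ℓ],
    (∀ s ∈ Δ, M * ρ s = ρ s * M) → IsCombM E M
  /-- Faltings (and Chevalley): the representation, and so its tensor powers, are semisimple -/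
  semi : ∀ n, Semisimple ρ n
  /-- Weil: the weights -/
  weight : ∀ (n j : ℕ) (t : Tensor ι n ℚ_[ℓ]), HasTwist ρ χ j t → n ≠ 2 * j → t = 0
  /-- the centre of the Lie algebra is spanned by `C` (it is zero if `A` has no simple factor of type
  IV; in general it is the centre of the Lie algebra of the Hodge group: Serre, Ullmo-Yafaev,
  Vasiu) -/
  centre : ∀ z : Matrix ι ι ℚ_[ℓ], (InLie ρ χ z ∧ ∀ y, InLie ρ χ y → z * y = y * z) ↔ IsCombM C z

variable (Λ : Set ℕ) (ρ : ∀ (ℓ : ℕ) [Fact ℓ.Prime], Γ →* Matrix ι ι ℚ_[ℓ])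
  (χ : ∀ (ℓ : ℕ) [Fact ℓ.Prime], Γ →* ℚ_[ℓ])

/-- The `ℓ`-adic monodromy groups, `ℓ ∈ Λ`, have a common `ℚ`-form: there is an algebraic group over
`ℚ`, given by a set `S` of polynomials, such that the group over `ℚ_ℓ` with the same equations is
the identity component of the Zariski closure of `ρ ℓ (Γ)` for all `ℓ ∈ Λ`. -/
def CommonGroup : Prop := ∃ S : Set (MvPolynomial (ι × ι) ℚ),
  ∀ (ℓ : ℕ) [Fact ℓ.Prime], ℓ ∈ Λ → ∀ g : Matrix ι ι (AlgebraicClosure ℚ_[ℓ]), IsUnit g.det →
    (InIdentityComponent (ρ ℓ) g ↔ IsZeroOf S g)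

/-- The Lie algebras of the `ℓ`-adic monodromy groups, `ℓ ∈ Λ`, have a common `ℚ`-form. -/
def CommonLie : Prop := ∃ T : Set (Matrix ι ι ℚ),
  ∀ (ℓ : ℕ) [Fact ℓ.Prime], ℓ ∈ Λ → ∀ y, InLie (ρ ℓ) (χ ℓ) y ↔ IsCombM T y

/-- The spaces of the `ℓ`-adic Tate tensors of degree `n`, `ℓ ∈ Λ`, have a common `ℚ`-form. -/
def CommonTate (n : ℕ) : Prop := ∃ T : Set (Tensor ι n ℚ),
  ∀ (ℓ : ℕ) [Fact ℓ.Prime], ℓ ∈ Λ → ∀ t : Tensor ι n ℚ_[ℓ], IsTate (ρ ℓ) (χ ℓ) t ↔ IsComb T t

end Pool.Agent.N202.CF
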