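import Pool.Agent.N202.CF.Grp

/-!
# Common forms of groups
-/

set_option linter.unusedSectionVars false

namespace Pool.Agent.N202.CF

open Matrix
open Pool.Agent.N996.BP Pool.Agent.N202.TB

variable {ι : Type} [Fintype ι] [DecidableEq ι] {Γ : Type} [Group Γ]

section one

variable {ℓ : ℕ} [Fact ℓ.Prime] {B Q : Matrix ι ι ℚ} {E C : Set (Matrix ι ι ℚ)}
  {ρ : Γ →* Matrix ι ι ℚ_[ℓ]} {χ : Γ →* ℚ_[ℓ]}

lemma isTate_iff {m : ℕ} {t : Tensor ι (2 * m) ℚ_[ℓ]} : IsTate ρ χ t ↔ HasTwist ρ χ m t := by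
  constructor
  · rintro ⟨j, hj, h⟩
    have : j = m := by omega
    rwa [this] at h
  · intro h
    exact ⟨m, rfl, h⟩

/-- The matrix over the larger field. -/
noncomputable abbrev up (Ω : Type) [Field Ω] [Algebra ℚ_[ℓ] Ω] (g : Matrix ι ι ℚ_[ℓ]) : Matrix ι ι Ω :=
  g.map (algebraMap ℚ_[ℓ] Ω)

/-- The tensor over the larger field. -/
noncomputable abbrev upT {n : ℕ} (Ω : Type) [Field Ω] [Algebra ℚ_[ℓ] Ω] (t : Tensor ι n ℚ_[ℓ]) : Tensor ι n Ω :=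
  fun v => algebraMap ℚ_[ℓ] Ω (t v)

variable {Ω : Type} [Field Ω] [Algebra ℚ_[ℓ] Ω]

lemma up_mul (g k : Matrix ι ι ℚ_[ℓ]) : up Ω (g * k) = up Ω g * up Ω k :=
  Matrix.map_mul

lemma up_one : up (ℓ := ℓ) Ω (1 : Matrix ι ι ℚ_[ℓ]) = 1 := Matrix.map_one _ (map_zero _) (map_one _)

lemma up_matL (M : Matrix ι ι ℚ) : up (ℓ := ℓ) Ω (matL ℚ_[ℓ] M) = matL Ω M := by
  ext i j
  simp [up, matL]

lemma upT_inL {n : ℕ} (t : Tensor ι n ℚ) : upT (ℓ := ℓ) Ω (inL ℚ_[ℓ] t) = inL Ω t := by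
  funext v
  simp [upT, inL]

lemma act_up {n : ℕ} (g : Matrix ι ι ℚ_[ℓ]) (t : Tensor ι n ℚ_[ℓ]) :
    act (up Ω g) (upT Ω t) = upT Ω (act g t) := by
  funext v
  simp [act, upT, up, map_sum, map_mul, map_prod]

lemma up_det (s : Γ) : IsUnit (up Ω (ρ s)).det := by
  have h : up Ω (ρ s) * up Ω (ρ s⁻¹) = 1 := by rw [← up_mul, rho_inv, up_one]
  exact IsUnit.of_mul_eq_one _ (by rw [← Matrix.det_mul, h, Matrix.det_one])

variable (h : Known B E C ℓ ρ χ)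
include h

lemma twist_beta (m : ℕ) (s : Γ) : act (ρ s) (beta m (matL ℚ_[ℓ] B)) =
    χ s ^ m • beta m (matL ℚ_[ℓ] B) := act_beta (h.form s)

/-- The polynomials given by Tate tensors vanish. -/
lemma vanishes_pol {m : ℕ} {t : Tensor ι (2 * m) ℚ_[ℓ]} (ht : HasTwist ρ χ m t)
    (v w : Fin (2 * m) → ι) :
    Vanishes ρ (pol (upT Ω t) (upT Ω (beta m (matL ℚ_[ℓ] B))) v w) := by
  obtain ⟨Δ, hΔ, h1⟩ := ht
  refine ⟨Δ, hΔ, fun s hs => ?_⟩
  rw [val_pol]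
  change act (up Ω (ρ s)) (upT Ω t) v * _ - _ * act (up Ω (ρ s)) (upT Ω _) w = 0
  rw [act_up, act_up, h1 s hs, twist_beta h]
  simp only [upT, Pi.smul_apply, smul_eq_mul, map_mul]
  ring

/-- Tate tensors are the tensors fixed by the group. -/
lemma tate_iff_group (hOP : S_OPEN) (hBQ : B * Q = 1) [Nonempty ι] {m : ℕ}
    {t : Tensor ι (2 * m) ℚ_[ℓ]} : IsTate ρ χ t ↔ ∀ g : Matrix ι ι Ω, IsUnit g.det →
      InIdentityComponent ρ g → ∀ v w, act g (upT Ω t) v * upT Ω (beta m (matL ℚ_[ℓ] B)) w =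
        upT Ω t v * act g (upT Ω (beta m (matL ℚ_[ℓ] B))) w := by
  rw [isTate_iff]
  constructor
  · intro ht g _ hg v w
    have h1 := hg _ (vanishes_pol (Ω := Ω) h ht v w)
    rw [val_pol] at h1
    exact eq_of_sub_eq_zero h1
  · intro ht
    obtain ⟨Δ, hΔ, hs⟩ := hOP ℚ_[ℓ] Ω ι Γ ρ
    refine ⟨Δ, hΔ, fun s hsΔ => ?_⟩
    obtain ⟨w, hw⟩ := beta_ne (m := m) (BQL (ℓ := ℓ) hBQ)
    funext v
    have h1 := ht (up Ω (ρ s)) (up_det s) (hs s hsΔ) v w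
    rw [act_up, act_up, twist_beta h] at h1
    simp only [upT, Pi.smul_apply, smul_eq_mul, ← map_mul] at h1
    have h2 := (algebraMap ℚ_[ℓ] Ω).injective h1
    have h3 : act (ρ s) t v * beta m (matL ℚ_[ℓ] B) w =
        (χ s ^ m * t v) * beta m (matL ℚ_[ℓ] B) w := by
      rw [h2]; ring
    exact mul_right_cancel₀ hw h3

/-- Matrices which fix all rational Tate tensors are in the identity component. -/
lemma inIC_of (hIC : S_IC) (hBQ : B * Q = 1) [Nonempty ι] {T : ∀ m, Set (Tensor ι (2 * m) ℚ)}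
    (hT : ∀ (m : ℕ) (t : Tensor ι (2 * m) ℚ_[ℓ]), IsTate ρ χ t ↔ IsComb (T m) t)
    {g : Matrix ι ι Ω} (hg : IsUnit g.det)
    (hB : ∀ v w, act g (inL Ω (vec2 B)) v * inL Ω (vec2 B) w =
      inL Ω (vec2 B) v * act g (inL Ω (vec2 B)) w)
    (hgT : ∀ m, ∀ a ∈ T m, ∀ v w, act g (inL Ω a) v * inL Ω (beta m B) w =
      inL Ω a v * act g (inL Ω (beta m B)) w) : InIdentityComponent ρ g := by
  have hΩ : CharZero Ω := charZero_of_injective_algebraMap (algebraMap ℚ_[ℓ] Ω).injective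
  have hBQ' : matL Ω B * matL Ω Q = 1 := by rw [← matL_mul, hBQ, matL_one]
  -- the multiplier
  obtain ⟨c, hc⟩ : ∃ c : Ω, g * matL Ω B * gᵀ = c • matL Ω B := by
    obtain ⟨w, hw⟩ : ∃ w, inL Ω (vec2 B) w ≠ 0 := by
      obtain ⟨i⟩ := ‹Nonempty ι›
      obtain ⟨j, hj⟩ : ∃ j, matL Ω B i j ≠ 0 := by
        by_contra hc
        push Not at hc
        have h3 : (matL Ω B * matL Ω Q) i i = 0 := by
          rw [Matrix.mul_apply]
          exact Finset.sum_eq_zero fun j _ => by rw [hc j, zero_mul]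
        rw [hBQ', Matrix.one_apply_eq] at h3
        exact one_ne_zero h3
      exact ⟨![i, j], hj⟩
    refine ⟨act g (inL Ω (vec2 B)) w / inL Ω (vec2 B) w, ?_⟩
    have h1 : act g (inL Ω (vec2 B)) = vec2 (g * matL Ω B * gᵀ) := kp_two g (matL Ω B)
    apply vec2.injective
    rw [map_smul, ← h1]
    funext v
    have h2 := hB v w
    rw [Pi.smul_apply, smul_eq_mul, div_mul_eq_mul_div, eq_div_iff hw, h2]
    change _ = act g (inL Ω (vec2 B)) w * inL Ω (vec2 B) v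
    ring
  have hfix : ∀ m, ∀ a ∈ T m, act g (inL Ω a) = c ^ m • inL Ω a := by
    intro m a ha
    obtain ⟨w, hw⟩ := beta_ne (m := m) hBQ'
    funext v
    have h1 := hgT m a ha v w
    rw [beta_inL, act_beta hc] at h1
    have h2 : act g (inL Ω a) v * beta m (matL Ω B) w =
        (c ^ m • inL Ω a) v * beta m (matL Ω B) w := by
      rw [h1, Pi.smul_apply, Pi.smul_apply, smul_eq_mul, smul_eq_mul]
      ring
    exact mul_right_cancel₀ hw h2
  refine hIC ℚ_[ℓ] Ω ι Γ ρ χ (matL ℚ_[ℓ] B) (matL ℚ_[ℓ] Q) (BQL hBQ) h.form h.semi h.weight g c hg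
    ?_ fun m t ht => ?_
  · have h1 := up_matL (ℓ := ℓ) (Ω := Ω) B
    change g * up Ω (matL ℚ_[ℓ] B) * gᵀ = c • up Ω (matL ℚ_[ℓ] B)
    rw [h1]
    exact hc
  · have h1 := (hT m t).1 (isTate_iff.2 ht)
    change act g (upT Ω t) = c ^ m • upT Ω t
    unfold IsComb at h1
    clear ht
    induction h1 using Submodule.span_induction with
    | mem x hx =>
      obtain ⟨a, ha, rfl⟩ := hx
      rw [upT_inL]
      exact hfix m a ha
    | zero =>
      have h2 : upT (ℓ := ℓ) Ω (0 : Tensor ι (2 * m) ℚ_[ℓ]) = 0 := by funext v; simp [upT]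
      rw [h2, act_eq, Matrix.mulVec_zero, smul_zero]
    | add x y _ _ hx hy =>
      have h2 : upT (ℓ := ℓ) Ω (x + y) = upT Ω x + upT Ω y := by funext v; simp [upT]
      rw [h2, act_eq, Matrix.mulVec_add, ← act_eq, ← act_eq, hx, hy, smul_add]
    | smul r x _ hx =>
      have h2 : upT (ℓ := ℓ) Ω (r • x) = algebraMap ℚ_[ℓ] Ω r • upT Ω x := by
        funext v; simp [upT]
      rw [h2, act_eq, Matrix.mulVec_smul, ← act_eq, hx, smul_comm]

end one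

lemma comb_univ {L : Type} [Field L] [CharZero L] {m : Type} [Fintype m] [DecidableEq m]
    (x : m → L) : IsComb Set.univ x := by
  have h1 : x = ∑ i, x i • inL L (Pi.single i (1 : ℚ)) := by
    funext j
    rw [Finset.sum_apply, Finset.sum_eq_single j]
    · simp [inL]
    · intro i _ hij
      simp [inL, Pi.single_eq_of_ne hij.symm]
    · intro hj
      exact absurd (Finset.mem_univ j) hj
  rw [h1]
  exact Submodule.sum_mem _ fun i _ => Submodule.smul_mem _ _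
    (Submodule.subset_span ⟨_, Set.mem_univ _, rfl⟩)

section family

variable {Λ : Set ℕ} {ρ : ∀ (ℓ : ℕ) [Fact ℓ.Prime], Γ →* Matrix ι ι ℚ_[ℓ]}
  {χ : ∀ (ℓ : ℕ) [Fact ℓ.Prime], Γ →* ℚ_[ℓ]} {B Q : Matrix ι ι ℚ} {E C : Set (Matrix ι ι ℚ)}
  (h : ∀ (ℓ : ℕ) [Fact ℓ.Prime], ℓ ∈ Λ → Known B E C ℓ (ρ ℓ) (χ ℓ)) (hBQ : B * Q = 1)
include h hBQ

theorem common_lie (h4 : CommonTate Λ ρ χ 4) : CommonLie Λ ρ χ := by
  obtain ⟨T, hT⟩ := h4
  exact ⟨GG' B E C T, fun ℓ _ hℓ y => lie_form hBQ (h ℓ hℓ) (hT ℓ hℓ) y⟩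

omit hBQ in
theorem common_tate (hl : CommonLie Λ ρ χ) (m : ℕ) : CommonTate Λ ρ χ (2 * m) := by
  obtain ⟨G, hG⟩ := hl
  exact ⟨_, fun ℓ _ hℓ t => tate_form (h ℓ hℓ) (hG ℓ hℓ) m t⟩

theorem common_group (hIC : S_IC) (hT : ∀ m, CommonTate Λ ρ χ (2 * m)) : CommonGroup Λ ρ := by
  choose T hT using hT
  refine ⟨{f | ∀ (ℓ : ℕ) [Fact ℓ.Prime], ℓ ∈ Λ → Vanishes (Ω := AlgebraicClosure ℚ_[ℓ]) (ρ ℓ)
    (MvPolynomial.map (algebraMap ℚ (AlgebraicClosure ℚ_[ℓ])) f)}, fun ℓ _ hℓ g hg =>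
    ⟨fun hIC f hf => ?_, fun hS => ?_⟩⟩
  · rw [aeval_eq_val]
    exact hIC _ (hf ℓ hℓ)
  · have hpol : ∀ (m : ℕ) (a : Tensor ι (2 * m) ℚ), (∀ (ℓ : ℕ) [Fact ℓ.Prime], ℓ ∈ Λ →
        IsTate (ρ ℓ) (χ ℓ) (inL ℚ_[ℓ] a)) → ∀ v w,
        act g (inL (AlgebraicClosure ℚ_[ℓ]) a) v * inL (AlgebraicClosure ℚ_[ℓ]) (beta m B) w =
        inL (AlgebraicClosure ℚ_[ℓ]) a v *
          act g (inL (AlgebraicClosure ℚ_[ℓ]) (beta m B)) w := by
      intro m a ha v w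
      have h1 := hS (pol a (beta m B) v w) (by
        intro ℓ' _ hℓ'
        have h2 := vanishes_pol (Ω := AlgebraicClosure ℚ_[ℓ']) (h ℓ' hℓ')
          (isTate_iff.1 (ha ℓ' hℓ')) v w
        rw [map_pol]
        rw [upT_inL, ← beta_inL, upT_inL] at h2
        exact h2)
      rw [aeval_eq_val, map_pol, val_pol] at h1
      exact eq_of_sub_eq_zero h1
    rcases isEmpty_or_nonempty ι with he | he
    · intro f hf
      obtain ⟨Δ, hΔ, h1⟩ := hf
      have h2 := h1 1 Δ.one_mem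
      have h3 : g = (ρ ℓ 1).map (algebraMap ℚ_[ℓ] (AlgebraicClosure ℚ_[ℓ])) := by
        ext i
        exact (he.false i).elim
      rw [h3]
      exact h2
    · refine inIC_of (h ℓ hℓ) hIC hBQ (fun m t => hT m ℓ hℓ t) hg ?_ fun m a ha =>
        hpol m a fun ℓ' _ hℓ' => (hT m ℓ' hℓ' _).2 (IsComb.of_mem ha)
      have h1 : beta 1 B = vec2 B := by
        funext v
        simp only [beta, rei, arr, kp_apply, Fin.prod_univ_one, vec2_apply]
        rfl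
      have h2 := hpol 1 (vec2 B) fun ℓ' _ hℓ' => tate_B (h ℓ' hℓ')
      rw [h1] at h2
      exact h2

theorem common_of_group (hOP : S_OPEN) (hDE : S_DESC) (hSU : S_SUB) (hG : CommonGroup Λ ρ) (m : ℕ) :
    CommonTate Λ ρ χ (2 * m) := by
  rcases isEmpty_or_nonempty ι with he | he
  · -- there are no indices
    refine ⟨Set.univ, fun ℓ _ hℓ t => ⟨fun _ => comb_univ t, fun _ => ?_⟩⟩
    refine ⟨m, rfl, ⊤, inferInstance, fun s _ => ?_⟩
    cases m with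
    | zero =>
      have hem : IsEmpty (Fin (2 * 0)) := inferInstanceAs (IsEmpty (Fin 0))
      rw [pow_zero, one_smul]
      funext v
      change ∑ w, (∏ k, ρ ℓ s (v k) (w k)) * t w = t v
      rw [Fintype.sum_unique, Finset.univ_eq_empty, Finset.prod_empty, one_mul,
        Subsingleton.elim v default]
    | succ m =>
      funext v
      exact (he.false (v ⟨0, by omega⟩)).elim
  · obtain ⟨S, hS⟩ := hG
    obtain ⟨T, hT⟩ := hDE ι S (2 * m) (beta m B)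
    refine ⟨T, fun ℓ _ hℓ t => ?_⟩
    rw [← hSU ℚ_[ℓ] (AlgebraicClosure ℚ_[ℓ]) _ T t,
      tate_iff_group (Ω := AlgebraicClosure ℚ_[ℓ]) (h ℓ hℓ) hOP hBQ, ← hT ℓ]
    rw [← upT_inL (ℓ := ℓ), beta_inL]
    exact forall_congr' fun g => forall_congr' fun hg => by rw [hS ℓ hℓ g hg]

end family

end Pool.Agent.N202.CF
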