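import Pool.Agent.N202.CF.Core2

/-!
# Groups and Tate tensors
-/

set_option linter.unusedSectionVars false

namespace Pool.Agent.N202.CF

open Matrix
open Pool.Agent.N996.BP Pool.Agent.N202.TB

variable {ι : Type} [Fintype ι] [DecidableEq ι]

/-! ### The polynomials -/

section pol

variable {R : Type} [CommRing R] {n : ℕ}

/-- The polynomials given by two tensors. -/
noncomputable def pol (t b : (Fin n → ι) → R) (v w : Fin n → ι) : MvPolynomial (ι × ι) R :=
  (∑ u, (∏ k, MvPolynomial.X (v k, u k)) * MvPolynomial.C (t u)) * MvPolynomial.C (b w) -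
    MvPolynomial.C (t v) * ∑ u, (∏ k, MvPolynomial.X (w k, u k)) * MvPolynomial.C (b u)

lemma val_pol {Ω : Type} [Field Ω] (g : Matrix ι ι Ω) (t b : Tensor ι n Ω) (v w : Fin n → ι) :
    val g (pol t b v w) = act g t v * b w - t v * act g b w := by
  simp only [val, pol, map_sub, map_mul, map_sum, map_prod, MvPolynomial.aeval_X,
    MvPolynomial.aeval_C, Algebra.algebraMap_self, RingHom.id_apply, act]

lemma map_pol {Ω : Type} [Field Ω] [Algebra ℚ Ω] (t b : Tensor ι n ℚ) (v w : Fin n → ι) :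
    MvPolynomial.map (algebraMap ℚ Ω) (pol t b v w) = pol (inL Ω t) (inL Ω b) v w := by
  simp only [pol, map_sub, map_mul, map_sum, map_prod, MvPolynomial.map_X, MvPolynomial.map_C,
    inL, eq_ratCast]

lemma aeval_eq_val {Ω : Type} [Field Ω] [Algebra ℚ Ω] (g : Matrix ι ι Ω)
    (f : MvPolynomial (ι × ι) ℚ) : MvPolynomial.aeval (fun p => g p.1 p.2) f =
      val g (MvPolynomial.map (algebraMap ℚ Ω) f) := by
  rw [val, MvPolynomial.aeval_map_algebraMap]

end pol

section beta

variable {L : Type} [Field L]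

/-- The bijection. -/
def e2 (m : ℕ) : Fin m ⊕ Fin m ≃ Fin (2 * m) :=
  finSumFinEquiv.trans (finCongr (two_mul m).symm)

/-- The power of the form as a tensor. -/
def beta (m : ℕ) (B : Matrix ι ι L) : Tensor ι (2 * m) L := rei (e2 m) (arr (kp (Fin m) B))

lemma act_beta {m : ℕ} {g B : Matrix ι ι L} {c : L} (h : g * B * gᵀ = c • B) :
    act g (beta m B) = c ^ m • beta m B := by
  rw [act_eq, beta, kp_rei, kp_arr, ← kp_transpose, ← kp_mul, ← kp_mul, h, kp_smul,
    Fintype.card_fin]
  rfl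

lemma beta_ne {m : ℕ} {B Q : Matrix ι ι L} [Nonempty ι] (hBQ : B * Q = 1) :
    ∃ w, beta m B w ≠ 0 := by
  obtain ⟨i⟩ := ‹Nonempty ι›
  obtain ⟨j, hj⟩ : ∃ j, B i j ≠ 0 := by
    by_contra hc
    push Not at hc
    have h3 : (B * Q) i i = 0 := by
      rw [Matrix.mul_apply]
      exact Finset.sum_eq_zero fun j _ => by rw [hc j, zero_mul]
    rw [hBQ, Matrix.one_apply_eq] at h3
    exact one_ne_zero h3
  refine ⟨(Sum.elim (fun _ => i) (fun _ => j)) ∘ (e2 m).symm, ?_⟩
  have h1 : beta m B ((Sum.elim (fun _ => i) (fun _ => j)) ∘ (e2 m).symm) = ∏ _k : Fin m, B i j := by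
    simp only [beta, rei, arr, Function.comp_assoc, Equiv.symm_comp_self, Function.comp_id]
    rfl
  rw [h1]
  exact Finset.prod_ne_zero_iff.2 fun _ _ => hj

lemma beta_inL {m : ℕ} [CharZero L] (B : Matrix ι ι ℚ) :
    inL L (beta m B) = beta m (matL L B) := by
  funext v
  simp only [inL, beta, rei, arr, kp_apply, matL, Matrix.map_apply, Rat.cast_prod]

end beta

end Pool.Agent.N202.CF
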