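import Pool.Agent.N202.CF.Fin
import Pool.Agent.N362.CF.OpenSub
import Pool.Agent.N362.CF.Desc
import Pool.Agent.N394.CF.IC

/-!
# The main theorem
-/

namespace Pool.Agent.N202.CF

theorem main {ι : Type} [Fintype ι] [DecidableEq ι] (B : Matrix ι ι ℚ) (hB : IsUnit B.det)
    (E C : Set (Matrix ι ι ℚ)) {Γ : Type} [Group Γ]
    (ρ : ∀ (ℓ : ℕ) [Fact ℓ.Prime], Γ →* Matrix ι ι ℚ_[ℓ])
    (χ : ∀ (ℓ : ℕ) [Fact ℓ.Prime], Γ →* ℚ_[ℓ]) (Λ : Set ℕ)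
    (h : ∀ (ℓ : ℕ) [Fact ℓ.Prime], ℓ ∈ Λ → Known B E C ℓ (ρ ℓ) (χ ℓ)) :
    (CommonGroup Λ ρ ↔ CommonTate Λ ρ χ 4) ∧ (CommonLie Λ ρ χ ↔ CommonTate Λ ρ χ 4) ∧
      ((∀ m, CommonTate Λ ρ χ (2 * m)) ↔ CommonTate Λ ρ χ 4) := by
  have hBQ : B * B⁻¹ = 1 := Matrix.mul_nonsing_inv _ hB
  have h1 : CommonTate Λ ρ χ 4 → CommonLie Λ ρ χ := common_lie h hBQ
  have h2 : CommonLie Λ ρ χ → ∀ m, CommonTate Λ ρ χ (2 * m) := fun hl m => common_tate h hl m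
  have h3 : (∀ m, CommonTate Λ ρ χ (2 * m)) → CommonTate Λ ρ χ 4 := fun hm => hm 2
  refine ⟨⟨fun hG => ?_, fun h4 => common_group h hBQ Pool.Agent.N394.CF.ic (h2 (h1 h4))⟩,
    ⟨fun hl => h3 (h2 hl), h1⟩, ⟨h3, fun h4 => h2 (h1 h4)⟩⟩
  exact common_of_group h hBQ Pool.Agent.N362.CF.open_ Pool.Agent.N362.CF.desc_
    Pool.Agent.N362.CF.sub_ hG 2

end Pool.Agent.N202.CF
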