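import Pool.Agent.N202.CF.Defs

/-!
# Statements of the steps
-/

namespace Pool.Agent.N202.CF

open Matrix

/-- CF/IC: a matrix which fixes all Tate tensors (up to the multiplier) is in the identity component
(double commutant). -/
def S_IC : Prop := ∀ (L Ω : Type) [Field L] [CharZero L] [Field Ω] [Algebra L Ω] (ι : Type)
  [Fintype ι] [DecidableEq ι] (Γ : Type) [Group Γ] (ρ : Γ →* Matrix ι ι L) (χ : Γ →* L)
  (B Q : Matrix ι ι L), B * Q = 1 → (∀ s, ρ s * B * (ρ s)ᵀ = χ s • B) →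
  (∀ n, Semisimple ρ n) →
  (∀ (n j : ℕ) (t : Tensor ι n L), HasTwist ρ χ j t → n ≠ 2 * j → t = 0) →
  ∀ (g : Matrix ι ι Ω) (c : Ω), IsUnit g.det →
    g * B.map (algebraMap L Ω) * gᵀ = c • B.map (algebraMap L Ω) →
  (∀ (m : ℕ) (t : Tensor ι (2 * m) L), HasTwist ρ χ m t →
    act g (fun v => algebraMap L Ω (t v)) = c ^ m • fun v => algebraMap L Ω (t v)) →
  InIdentityComponent ρ g

/-- CF/OPEN: the identity component contains the image of a subgroup of finite index. -/
def S_OPEN : Prop := ∀ (L Ω : Type) [Field L] [Field Ω] [Algebra L Ω] (ι : Type)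
  [Fintype ι] [DecidableEq ι] (Γ : Type) [Group Γ] (ρ : Γ →* Matrix ι ι L),
  ∃ Δ : Subgroup Γ, Δ.FiniteIndex ∧ ∀ s ∈ Δ,
    InIdentityComponent ρ ((ρ s).map (algebraMap L Ω))

/-- CF/DESC: the tensors fixed (up to a multiplier, given by the rational tensor `b`) by an
algebraic group over `ℚ` are spanned by rational tensors, the same ones for all `ℓ`. -/
def S_DESC : Prop := ∀ (ι : Type) [Fintype ι] [DecidableEq ι] (S : Set (MvPolynomial (ι × ι) ℚ))
  (n : ℕ) (b : Tensor ι n ℚ), ∃ T : Set (Tensor ι n ℚ), ∀ (ℓ : ℕ) [Fact ℓ.Prime]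
  (t : Tensor ι n (AlgebraicClosure ℚ_[ℓ])),
  (∀ g : Matrix ι ι (AlgebraicClosure ℚ_[ℓ]), IsUnit g.det → IsZeroOf S g → ∀ v w,
    act g t v * inL (AlgebraicClosure ℚ_[ℓ]) b w = t v * act g (inL (AlgebraicClosure ℚ_[ℓ]) b) w) ↔
  IsComb T t

/-- CF/SUB: a vector with entries in the subfield `L` which is a combination of rational vectors
over the extension `Ω` is a combination over `L`. -/
def S_SUB : Prop := ∀ (L Ω : Type) [Field L] [CharZero L] [Field Ω] [Algebra L Ω] (m : Type)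
  [Fintype m] (T : Set (m → ℚ)) (x : m → L),
  IsComb T (fun i => algebraMap L Ω (x i)) ↔ IsComb T x

end Pool.Agent.N202.CF
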